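import Pool.Agent.X147.VecFlowB

/-!
Rank-two unit vector flows give 4-flows.

A finite multigraph (parallel edges and loops allowed) with a fixed orientation is given by
finite types `V`, `E` and maps `src tgt : E → V` (tail and head of every edge).
-/

set_option autoImplicit false

namespace Pool.Agent.Results.MP_12428a_co.RankTwo

open Finset

open scoped Classical in
/-- non-loop edges with tail `v` -/
noncomputable def outE {V E : Type} [Fintype E] (src tgt : E → V) (v : V) : Finset E :=
  univ.filter fun e => src e = v ∧ tgt e ≠ v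

open scoped Classical in
/-- non-loop edges with head `v` -/
noncomputable def inE {V E : Type} [Fintype E] (src tgt : E → V) (v : V) : Finset E :=
  univ.filter fun e => tgt e = v ∧ src e ≠ v

/-- conservation at every vertex -/
def Conserves {V E A : Type} [Fintype E] [AddCommGroup A] (src tgt : E → V) (f : E → A) : Prop :=
  ∀ v : V, ∑ e ∈ outE src tgt v, f e = ∑ e ∈ inE src tgt v, f e

/-- a unit vector flow in `ℝ^d`; for `d = 3` this is an `S²`-flow -/
def IsUnitFlow {V E : Type} [Fintype E] {d : ℕ} (src tgt : E → V)
    (φ : E → EuclideanSpace ℝ (Fin d)) : Prop :=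
  (∀ e, ‖φ e‖ = 1) ∧ Conserves src tgt φ

/-- a 4-flow: an integer flow with `0 < |ψ e| < 4` on every edge -/
def IsFourFlow {V E : Type} [Fintype E] (src tgt : E → V) (ψ : E → ℤ) : Prop :=
  (∀ e, 0 < |ψ e| ∧ |ψ e| < 4) ∧ Conserves src tgt ψ

open scoped Classical in
/-- the balanced vector of `v`, indexed by the distinct values of `φ`: for each value `x`,
(number of non-loop edges of value `x` out of `v`) minus (number of those into `v`) -/
noncomputable def balanced {V E : Type} [Fintype E] {d : ℕ} (src tgt : E → V)
    (φ : E → EuclideanSpace ℝ (Fin d)) (v : V) : Set.range φ → ℚ :=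
  fun x => (((outE src tgt v).filter fun e => φ e = x).card : ℚ)
    - (((inE src tgt v).filter fun e => φ e = x).card : ℚ)

/-- the rational span `S_ℚ(φ)` of the balanced vectors -/
noncomputable def SQ {V E : Type} [Fintype E] {d : ℕ} (src tgt : E → V)
    (φ : E → EuclideanSpace ℝ (Fin d)) : Submodule ℚ (Set.range φ → ℚ) :=
  Submodule.span ℚ (Set.range (balanced src tgt φ))

open scoped Classical in
theorem conserves_iff {V E A : Type} [Fintype E] [AddCommGroup A]
    (src tgt : E → V) (f : E → A) :
    Conserves src tgt f ↔ ∀ v, ∑ e, (Pool.Agent.X147.VF.inc src tgt e v) • f e = 0 := by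
  have key : ∀ v, ∑ e, (Pool.Agent.X147.VF.inc src tgt e v) • f e
      = ∑ e ∈ outE src tgt v, f e - ∑ e ∈ inE src tgt v, f e := by
    intro v
    rw [outE, inE, Finset.sum_filter, Finset.sum_filter, ← Finset.sum_sub_distrib]
    refine Finset.sum_congr rfl fun e _ => ?_
    unfold Pool.Agent.X147.VF.inc
    by_cases h1 : src e = v <;> by_cases h2 : tgt e = v <;> simp [h1, h2]
  unfold Conserves
  refine forall_congr' fun v => ?_
  rw [key v, sub_eq_zero]

open scoped Classical in
theorem balanced_eq {V E : Type} [Fintype E] {d : ℕ} (src tgt : E → V)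
    (φ : E → EuclideanSpace ℝ (Fin d)) (v : V) :
    balanced src tgt φ v = fun z : Set.range φ =>
      ∑ e, if φ e = z then (Pool.Agent.X147.VF.inc src tgt e v : ℚ) else 0 := by
  funext z
  unfold balanced outE inE
  rw [Finset.filter_filter, Finset.filter_filter, Finset.card_filter, Finset.card_filter]
  push_cast
  rw [← Finset.sum_sub_distrib]
  refine Finset.sum_congr rfl fun e _ => ?_
  unfold Pool.Agent.X147.VF.inc
  by_cases h1 : src e = v <;> by_cases h2 : tgt e = v <;> by_cases h3 : φ e = z <;>
    simp [h1, h2, h3]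

/-- If an oriented finite graph carries a unit vector flow in `ℝ^d` (for `d = 3`: an `S²`-flow)
whose balanced vectors span a space of rank at most two, then it has a 4-flow. -/
theorem result {V E : Type} [Fintype V] [Fintype E] {d : ℕ} (src tgt : E → V)
    (φ : E → EuclideanSpace ℝ (Fin d)) (hφ : IsUnitFlow src tgt φ)
    (hrank : Module.finrank ℚ (SQ src tgt φ) ≤ 2) :
    ∃ ψ : E → ℤ, IsFourFlow src tgt ψ := by
  classical
  obtain ⟨hunit, hcons⟩ := hφ
  have hb : (balanced src tgt φ) = fun v => (fun z : Set.range φ =>
      ∑ e, if φ e = z then (Pool.Agent.X147.VF.inc src tgt e v : ℚ) else 0) := by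
    funext v
    rw [balanced_eq src tgt φ v]
  unfold SQ at hrank
  rw [hb] at hrank
  obtain ⟨ψ, h1, h2⟩ := Pool.Agent.X147.VF.four_flow src tgt φ hunit
    ((conserves_iff src tgt φ).mp hcons) (by convert hrank)
  refine ⟨ψ, h2, (conserves_iff src tgt ψ).mpr ?_⟩
  intro v
  simpa [smul_eq_mul] using h1 v

end Pool.Agent.Results.MP_12428a_co.RankTwo
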